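import Pool.Agent.X249.DH.Transitive

/-!
# A vertex-transitive strongly universal countable distance-hereditary graph

Every finite distance-hereditary graph with at least two vertices has an isolated vertex, a pendant
vertex or a pair of twins (Bandelt and Mulder). Finite such graphs are therefore coded by
configurations in a fixed countable set of codes, and the codes, with the adjacency read off from
them, form a countable distance-hereditary graph `U₀` whose configurations are rich enough for a
compactness argument: every countable distance-hereditary graph is an induced subgraph of `U₀`.
For a vertex-transitive graph take the free group on the vertices of `U₀`, and join `g` to
`b a⁻¹ g` for every edge `ab` of `U₀`: this is a tree-like amalgam of copies of `U₀`, hence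
distance-hereditary, and the free group acts transitively on it by right multiplication.
-/

namespace Pool.Agent.Results.MP_0380a0_co.TransitiveUniversal

open X249.DH

/-- There is a countable distance-hereditary graph `U` which is vertex-transitive and contains
every countable distance-hereditary graph as an induced subgraph. -/
theorem result : ∃ (W : Type) (_ : Countable W) (U : SimpleGraph W),
    DistHereditary U ∧ (∀ x y : W, ∃ φ : U ≃g U, φ x = y) ∧
      ∀ (V : Type) [Countable V] (G : SimpleGraph V), DistHereditary G →
        Nonempty (G ↪g U) :=
  transitive_universal

end Pool.Agent.Results.MP_0380a0_co.TransitiveUniversal
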